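import Mathlib

/-!
# F-pure thresholds and graded sequences of ideals: definitions
-/

namespace Pool.Agent.H9.FPT

open MvPolynomial
open scoped ENNReal NNReal

/-- The map `R → R^{1/p^e}`, `1 ↦ d^{1/p^e}`, splits as a map of `R`-modules: there is an additive
map `φ` from `R`, seen as `R^{1/p^e}`, to `R` with `φ (r^{p^e} s) = r φ(s)` and `φ(d) = 1`. -/
def Splits (p : ℕ) (R : Type) [CommRing R] (e : ℕ) (d : R) : Prop :=
  ∃ φ : R →+ R, (∀ r s, φ (r ^ p ^ e * s) = r * φ s) ∧ φ d = 1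

/-- `R` is a Noetherian ring of characteristic `p`, F-finite (`R` is finitely generated over the
`p`-th powers) and F-pure (the Frobenius map `R → R` splits). -/
structure IsFPureRing (p : ℕ) (R : Type) [CommRing R] : Prop where
  noetherian : IsNoetherianRing R
  charP : CharP R p
  ffinite : ∃ S : Finset R, ∀ r : R, ∃ c : R → R, r = ∑ s ∈ S, c s ^ p * s
  fpure : Splits p R 1 1

/-- The pair `(R, 𝔞^t)` is F-pure: after localising at any prime, for all large `e` there is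
`d ∈ 𝔞^⌈t(p^e - 1)⌉` such that `1 ↦ d^{1/p^e}` splits. -/
def IsFPurePair (p : ℕ) {R : Type} [CommRing R] (𝔞 : Ideal R) (t : ℝ≥0) : Prop :=
  ∀ (P : Ideal R) [P.IsPrime], ∃ e₀ : ℕ, ∀ e ≥ e₀,
    ∃ d ∈ (𝔞.map (algebraMap R (Localization.AtPrime P))) ^ ⌈t * ((p ^ e - 1 : ℕ) : ℝ≥0)⌉₊,
      Splits p (Localization.AtPrime P) e d

/-- The F-pure threshold of `𝔞`, in `[0, ∞]`. -/
noncomputable def fpt (p : ℕ) {R : Type} [CommRing R] (𝔞 : Ideal R) : ℝ≥0∞ :=
  ⨆ t ∈ {t : ℝ≥0 | IsFPurePair p 𝔞 t}, (t : ℝ≥0∞)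

/-- `I 1, I 2, …` is a graded sequence of ideals, each with an element outside all the minimal
primes. -/
def IsGradedSeq {R : Type} [CommRing R] (I : ℕ → Ideal R) : Prop :=
  (∀ m ≥ 1, ∃ r ∈ I m, ∀ P ∈ minimalPrimes R, r ∉ P) ∧
    ∀ m ≥ 1, ∀ n ≥ 1, I m * I n ≤ I (m + n)

end Pool.Agent.H9.FPT
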