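import Pool.Agent.H9.FPT.Defs

/-!
# Extending `p^{-e}`-linear maps to localizations and quotients
-/

namespace Pool.Agent.H9.FPT

theorem exists_localize {A : Type} [CommRing A] (M : Submonoid A) (q : ℕ) (φ : A →+ A)
    (hφ : ∀ r s, φ (r ^ (q + 1) * s) = r * φ s) :
    ∃ ψ : Localization M →+ Localization M, (∀ r s, ψ (r ^ (q + 1) * s) = r * ψ s) ∧
      ∀ a, ψ (algebraMap A _ a) = algebraMap A _ (φ a) := by
  have H : ∀ {a c : A} {s t : M}, Localization.r M (a, s) (c, t) →
      Localization.mk (φ (a * (s : A) ^ q)) s = Localization.mk (φ (c * (t : A) ^ q)) t := by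
    intro a c s t h
    rw [Localization.r_iff_exists] at h
    obtain ⟨u, hu⟩ := h
    rw [Localization.mk_eq_mk_iff, Localization.r_iff_exists]
    refine ⟨u, ?_⟩
    simp only at hu ⊢
    have e1 : (u : A) * (t * φ (a * (s : A) ^ q))
        = φ ((u * t : A) ^ (q + 1) * (a * (s : A) ^ q)) := by
      rw [hφ, mul_assoc]
    have e2 : (u : A) * (s * φ (c * (t : A) ^ q))
        = φ ((u * s : A) ^ (q + 1) * (c * (t : A) ^ q)) := by
      rw [hφ, mul_assoc]
    rw [e1, e2]
    congr 1
    calc (u * t : A) ^ (q + 1) * (a * (s : A) ^ q)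
        = (u * t * s : A) ^ q * (u * (t * a)) := by ring
      _ = (u * t * s : A) ^ q * (u * (s * c)) := by rw [hu]
      _ = _ := by ring
  let f : Localization M → Localization M := fun x =>
    Localization.liftOn x (fun a s => Localization.mk (φ (a * (s : A) ^ q)) s) H
  have hf : ∀ (a : A) (s : M),
      f (Localization.mk a s) = Localization.mk (φ (a * (s : A) ^ q)) s := fun a s => rfl
  have hadd : ∀ x y, f (x + y) = f x + f y := by
    intro x y
    induction x using Localization.induction_on with | H x => ?_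
    induction y using Localization.induction_on with | H y => ?_
    obtain ⟨a, s⟩ := x
    obtain ⟨b, t⟩ := y
    rw [Localization.add_mk, hf, hf, hf, Localization.add_mk]
    congr 1
    rw [← hφ, ← hφ, ← map_add]
    congr 1
    simp only [Submonoid.coe_mul]
    ring
  refine ⟨{ toFun := f, map_zero' := ?_, map_add' := hadd }, ?_, ?_⟩
  · have := hadd 0 0
    rw [add_zero] at this
    simpa using this.symm
  · intro r s
    change f (r ^ (q + 1) * s) = r * f s
    induction r using Localization.induction_on with | H r => ?_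
    induction s using Localization.induction_on with | H s => ?_
    obtain ⟨a, u⟩ := r
    obtain ⟨b, t⟩ := s
    rw [Localization.mk_pow, Localization.mk_mul, hf, hf, Localization.mk_mul,
      Localization.mk_eq_mk_iff, Localization.r_iff_exists]
    refine ⟨1, ?_⟩
    simp only [Submonoid.coe_one, one_mul, Submonoid.coe_mul, SubmonoidClass.coe_pow]
    have e1 : a ^ (q + 1) * b * ((u : A) ^ (q + 1) * t) ^ q
        = (a * (u : A) ^ q) ^ (q + 1) * (b * (t : A) ^ q) := by ring
    rw [e1, hφ]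
    ring
  · intro a
    change f (algebraMap A _ a) = _
    rw [← Localization.mk_one_eq_algebraMap, ← Localization.mk_one_eq_algebraMap, hf]
    simp

theorem exists_quotient {A : Type} [CommRing A] (I : Ideal A) (q : ℕ) (φ : A →+ A)
    (hφ : ∀ r s, φ (r ^ q * s) = r * φ s) (hI : ∀ a ∈ I, φ a ∈ I) :
    ∃ ψ : A ⧸ I →+ A ⧸ I, (∀ r s, ψ (r ^ q * s) = r * ψ s) ∧
      ∀ a, ψ (Ideal.Quotient.mk I a) = Ideal.Quotient.mk I (φ a) := by
  have hs := Ideal.Quotient.mk_surjective (I := I)
  have hw : ∀ a b, Ideal.Quotient.mk I a = Ideal.Quotient.mk I b →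
      Ideal.Quotient.mk I (φ a) = Ideal.Quotient.mk I (φ b) := by
    intro a b h
    rw [Ideal.Quotient.eq] at h ⊢
    rw [← map_sub]
    exact hI _ h
  let f : A ⧸ I → A ⧸ I := fun x => Ideal.Quotient.mk I (φ (Function.surjInv hs x))
  have hf : ∀ a, f (Ideal.Quotient.mk I a) = Ideal.Quotient.mk I (φ a) := fun a =>
    hw _ _ (Function.surjInv_eq hs _)
  refine ⟨{ toFun := f, map_zero' := ?_, map_add' := ?_ }, ?_, hf⟩
  · rw [← map_zero (Ideal.Quotient.mk I), hf, map_zero]
  · intro x y
    obtain ⟨a, rfl⟩ := hs x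
    obtain ⟨b, rfl⟩ := hs y
    rw [← map_add, hf, hf, hf, map_add, map_add]
  · intro x y
    obtain ⟨a, rfl⟩ := hs x
    obtain ⟨b, rfl⟩ := hs y
    change f _ = _ * f _
    rw [← map_pow, ← map_mul, hf, hf, hφ, map_mul]

theorem Splits.localize {p : ℕ} (hp : 0 < p) {A : Type} [CommRing A] {e : ℕ} {d : A}
    (h : Splits p A e d) (P : Ideal A) [P.IsPrime] :
    Splits p (Localization.AtPrime P) e (algebraMap A _ d) := by
  obtain ⟨φ, h1, h2⟩ := h
  obtain ⟨q, hq⟩ : ∃ q, p ^ e = q + 1 := ⟨p ^ e - 1, by have := pow_pos hp e; omega⟩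
  rw [hq] at h1
  obtain ⟨ψ, h3, h4⟩ := exists_localize P.primeCompl q φ h1
  refine ⟨ψ, ?_, ?_⟩
  · rw [hq]
    exact h3
  · rw [h4, h2, map_one]

/-- Iterating a splitting. -/
theorem exists_iterate {p : ℕ} (hp : 0 < p) {A : Type} [CommRing A] (φ : A →+ A) (z : A)
    (h1 : ∀ r s, φ (r ^ p * s) = r * φ s) (h2 : φ (z ^ (p - 1)) = 1) (e : ℕ) :
    Splits p A e (z ^ (p ^ e - 1)) := by
  induction e with
  | zero => exact ⟨AddMonoidHom.id A, by simp, by simp⟩
  | succ e ih =>
    obtain ⟨ψ, h3, h4⟩ := ih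
    refine ⟨φ.comp ψ, ?_, ?_⟩
    · intro r s
      rw [AddMonoidHom.comp_apply, AddMonoidHom.comp_apply, pow_succ', pow_mul, h3, h1]
    · have hq : p ^ (e + 1) - 1 = (p - 1) * p ^ e + (p ^ e - 1) := by
        have h5 : 0 < p ^ e := pow_pos hp e
        obtain ⟨k, rfl⟩ : ∃ k, p = k + 1 := ⟨p - 1, by omega⟩
        rw [pow_succ]
        generalize (k + 1) ^ e = N at h5 ⊢
        obtain ⟨n, rfl⟩ : ∃ n, N = n + 1 := ⟨N - 1, by omega⟩
        simp only [Nat.add_sub_cancel]
        have : (n + 1) * (k + 1) = k * (n + 1) + n + 1 := by ring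
        omega
      rw [AddMonoidHom.comp_apply, hq, pow_add, pow_mul, h3, h4, mul_one, h2]

end Pool.Agent.H9.FPT
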