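import Pool.Agent.H9.FPT.Poly

/-!
# F-pure thresholds of the graded sequence
-/

namespace Pool.Agent.H9.FPT

open MvPolynomial Filter Topology
open scoped ENNReal NNReal

variable {p : ℕ} [hp : Fact p.Prime]

/-- Evaluation at the origin. -/
noncomputable def ev (p : ℕ) : Rxyz p →+* ZMod p :=
  Ideal.Quotient.lift _ constantCoeff (by
    intro a ha
    rw [Ideal.mem_span_singleton] at ha
    obtain ⟨s, rfl⟩ := ha
    simp)

theorem ev_mk (u : MvPolynomial (Fin 3) (ZMod p)) :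
    ev p (Ideal.Quotient.mk _ u) = constantCoeff u := rfl

theorem ev_v (i : Fin 3) : ev p (v p i) = 0 := by
  rw [v, ev_mk]
  simp

/-- The prime ideal of the origin. -/
noncomputable def P0 (p : ℕ) : Ideal (Rxyz p) := RingHom.ker (ev p)

instance : (P0 p).IsPrime := RingHom.ker_isPrime _

theorem v_mem (i : Fin 3) : v p i ∈ P0 p := ev_v i

theorem not_dvd (i j : Fin 3) (h : i ≠ j) : ¬ (X i : MvPolynomial (Fin 3) (ZMod p)) ∣ X j := by
  rw [X_dvd_X]
  exact h

theorem v_mul_eq_zero : v p 0 * v p 1 = 0 := by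
  rw [v, v, ← map_mul, mem_iff]

/-- `x` and `y` are nonzero in the local ring at the origin. -/
theorem loc_ne_zero (i : Fin 3) (hi : i = 0 ∨ i = 1) :
    algebraMap (Rxyz p) (Localization.AtPrime (P0 p)) (v p i) ≠ 0 := by
  intro h
  rw [IsLocalization.map_eq_zero_iff (P0 p).primeCompl] at h
  obtain ⟨⟨s, hs⟩, hsx⟩ := h
  obtain ⟨u, rfl⟩ := Ideal.Quotient.mk_surjective s
  simp only at hsx
  rw [v, ← map_mul, mem_iff] at hsx
  apply hs
  change ev p (Ideal.Quotient.mk _ u) = 0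
  rw [ev_mk]
  obtain ⟨w, hw⟩ := hsx
  rcases hi with rfl | rfl
  · have h1 : u = X 1 * w := by
      apply mul_right_cancel₀ (X_ne_zero 0 : (X 0 : MvPolynomial (Fin 3) (ZMod p)) ≠ 0)
      rw [hw]
      ring
    rw [h1]
    simp
  · have h1 : u = X 0 * w := by
      apply mul_right_cancel₀ (X_ne_zero 1 : (X 1 : MvPolynomial (Fin 3) (ZMod p)) ≠ 0)
      rw [hw]
      ring
    rw [h1]
    simp

theorem nonZeroDivisor (u : MvPolynomial (Fin 3) (ZMod p)) (h0 : ¬ X 0 ∣ u) (h1 : ¬ X 1 ∣ u) :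
    Ideal.Quotient.mk (Ideal.span {(X 0 * X 1 : MvPolynomial (Fin 3) (ZMod p))}) u ∈
      nonZeroDivisors (Rxyz p) := by
  rw [mem_nonZeroDivisors_iff_right]
  intro a ha
  obtain ⟨f, rfl⟩ := Ideal.Quotient.mk_surjective a
  rw [← map_mul, mem_iff] at ha
  rw [mem_iff]
  have hp0 : Prime (X 0 : MvPolynomial (Fin 3) (ZMod p)) := X_prime
  have hp1 : Prime (X 1 : MvPolynomial (Fin 3) (ZMod p)) := X_prime
  obtain ⟨f', rfl⟩ := (hp0.dvd_or_dvd ((Dvd.intro _ rfl).trans ha)).resolve_right h0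
  have h2 : X 1 ∣ X 0 * f' := (hp1.dvd_or_dvd ((Dvd.intro_left _ rfl).trans ha)).resolve_right h1
  exact mul_dvd_mul_left _ ((hp1.dvd_or_dvd h2).resolve_left (not_dvd 1 0 (by decide)))

theorem not_mem_minimal {r : Rxyz p} (hr : r ∈ nonZeroDivisors (Rxyz p)) (P : Ideal (Rxyz p))
    (hP : P ∈ minimalPrimes (Rxyz p)) : r ∉ P := fun h =>
  Set.disjoint_left.1 (Ideal.disjoint_nonZeroDivisors_of_mem_minimalPrimes hP) h hr

theorem isFPureRing : IsFPureRing p (Rxyz p) := by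
  haveI := nontriv (p := p)
  exact ⟨inferInstance,
    charP_of_injective_algebraMap (algebraMap (ZMod p) (Rxyz p)).injective p, ffinite, fpure⟩

theorem mul_aux {A : Type} [CommRing A] (Z J : Ideal A) (a b c : ℕ) (h : c ≤ a + b) :
    Z ^ a * J * (Z ^ b * J) ≤ Z ^ c :=
  (Ideal.mul_mono Ideal.mul_le_left Ideal.mul_le_left).trans
    ((pow_add Z a b).symm.le.trans (Ideal.pow_le_pow_right h))

theorem isGradedSeq : IsGradedSeq (seq p) := by
  constructor
  · intro m _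
    by_cases hm : Even m
    · refine ⟨v p 2 ^ (m / 2), ?_, not_mem_minimal ?_⟩
      · rw [seq, if_pos hm, Ideal.span_singleton_pow]
        exact Ideal.mem_span_singleton_self _
      · rw [v, ← map_pow]
        refine nonZeroDivisor _ (fun h => ?_) (fun h => ?_)
        · exact not_dvd 0 2 (by decide) (X_prime.dvd_of_dvd_pow h)
        · exact not_dvd 1 2 (by decide) (X_prime.dvd_of_dvd_pow h)
    · refine ⟨v p 2 ^ ((m + 1) / 2) * (v p 0 + v p 1), ?_, not_mem_minimal ?_⟩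
      · rw [seq, if_neg hm, Ideal.span_singleton_pow]
        exact Ideal.mul_mem_mul (Ideal.mem_span_singleton_self _)
          (Ideal.add_mem _ (Ideal.subset_span (by simp)) (Ideal.subset_span (by simp)))
      · apply mul_mem
        · rw [v, ← map_pow]
          refine nonZeroDivisor _ (fun h => ?_) (fun h => ?_)
          · exact not_dvd 0 2 (by decide) (X_prime.dvd_of_dvd_pow h)
          · exact not_dvd 1 2 (by decide) (X_prime.dvd_of_dvd_pow h)
        · rw [v, v, ← map_add]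
          refine nonZeroDivisor _ (fun h => ?_) (fun h => ?_)
          · exact not_dvd 0 1 (by decide) ((dvd_add_right (dvd_refl _)).1 h)
          · exact not_dvd 1 0 (by decide) ((dvd_add_left (dvd_refl _)).1 h)
  · intro m _ n _
    by_cases hm : Even m <;> by_cases hn : Even n
    · have h1 : Even (m + n) := hm.add hn
      obtain ⟨a, rfl⟩ := hm
      obtain ⟨b, rfl⟩ := hn
      rw [seq, seq, seq, if_pos ⟨a, rfl⟩, if_pos ⟨b, rfl⟩, if_pos h1, ← pow_add]
      apply Ideal.pow_le_pow_right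
      omega
    · have h1 : ¬ Even (m + n) := by
        rw [Nat.even_add]
        tauto
      rw [seq, seq, seq, if_pos hm, if_neg hn, if_neg h1, ← mul_assoc, ← pow_add]
      apply Ideal.mul_mono_left
      apply Ideal.pow_le_pow_right
      obtain ⟨a, rfl⟩ := hm
      omega
    · have h1 : ¬ Even (m + n) := by
        rw [Nat.even_add]
        tauto
      rw [seq, seq, seq, if_neg hm, if_pos hn, if_neg h1, mul_right_comm, ← pow_add]
      apply Ideal.mul_mono_left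
      apply Ideal.pow_le_pow_right
      obtain ⟨a, rfl⟩ := hn
      omega
    · have h1 : Even (m + n) := by
        rw [Nat.even_add]
        tauto
      rw [seq, seq, seq, if_neg hm, if_neg hn, if_pos h1]
      rw [Nat.not_even_iff_odd] at hm hn
      obtain ⟨a, ha⟩ := hm
      obtain ⟨b, hb⟩ := hn
      exact mul_aux _ _ _ _ _ (by omega)

/-- A splitting element cannot be a `q`-th power of a non-unit times something. -/
theorem not_splits_of_mem {A : Type} [CommRing A] {e : ℕ} {d z : A} (hz : ¬ IsUnit z)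
    (hd : d ∈ Ideal.span {z ^ p ^ e}) : ¬ Splits p A e d := by
  rintro ⟨φ, h1, h2⟩
  rw [Ideal.mem_span_singleton] at hd
  obtain ⟨a, rfl⟩ := hd
  rw [h1] at h2
  exact hz (IsUnit.of_mul_eq_one _ h2)

/-- A splitting element cannot be in `(x, y)` if `x y = 0` and `x`, `y` are not zero. -/
theorem not_splits_of_mem_pair {A : Type} [CommRing A] [IsLocalRing A] {e : ℕ} {d x y : A}
    (hxy : x * y = 0) (hx : x ≠ 0) (hy : y ≠ 0) (hd : d ∈ Ideal.span {x, y}) :
    ¬ Splits p A e d := by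
  rintro ⟨φ, h1, h2⟩
  rw [Ideal.mem_span_pair] at hd
  obtain ⟨a, b, rfl⟩ := hd
  have hq : ∃ k, p ^ e = k + 1 := ⟨p ^ e - 1, by have := pow_pos hp.1.pos e; omega⟩
  obtain ⟨k, hk⟩ := hq
  rw [hk] at h1
  have e1 : y * φ (a * x) = 0 := by
    rw [← h1]
    have : y ^ (k + 1) * (a * x) = (x * y) * (y ^ k * a) := by ring
    rw [this, hxy, zero_mul, map_zero]
  have e2 : x * φ (b * y) = 0 := by
    rw [← h1]
    have : x ^ (k + 1) * (b * y) = (x * y) * (x ^ k * b) := by ring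
    rw [this, hxy, zero_mul, map_zero]
  have n1 : φ (a * x) ∈ nonunits A := by
    intro h
    exact hy (h.mul_left_eq_zero.1 e1)
  have n2 : φ (b * y) ∈ nonunits A := by
    intro h
    exact hx (h.mul_left_eq_zero.1 e2)
  have n3 := IsLocalRing.nonunits_add n1 n2
  rw [← map_add, h2] at n3
  exact n3 isUnit_one

theorem loc_not_unit (i : Fin 3) :
    ¬ IsUnit (algebraMap (Rxyz p) (Localization.AtPrime (P0 p)) (v p i)) := by
  intro h
  rw [IsLocalization.AtPrime.isUnit_to_map_iff _ (P0 p)] at h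
  exact h (v_mem i)

theorem fpt_odd (k : ℕ) :
    fpt p (Ideal.span {v p 2} ^ k * Ideal.span {v p 0, v p 1}) = 0 := by
  rw [fpt]
  refine le_antisymm (iSup₂_le fun t ht => ?_) bot_le
  by_contra hne
  have ht0 : 0 < t := by
    rcases eq_or_lt_of_le (bot_le : (⊥ : ℝ≥0) ≤ t) with h | h
    · rw [← h] at hne
      exact absurd (by simp) hne
    · exact h
  obtain ⟨e0, he0⟩ := ht (P0 p)
  obtain ⟨d, hd, hs⟩ := he0 (e0 + 1) (Nat.le_succ _)
  refine not_splits_of_mem_pair (x := algebraMap _ _ (v p 0)) (y := algebraMap _ _ (v p 1))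
    ?_ (loc_ne_zero 0 (Or.inl rfl)) (loc_ne_zero 1 (Or.inr rfl)) ?_ hs
  · rw [← map_mul, v_mul_eq_zero, map_zero]
  · have hN : ⌈t * ((p ^ (e0 + 1) - 1 : ℕ) : ℝ≥0)⌉₊ ≠ 0 := by
      rw [← Nat.pos_iff_ne_zero, Nat.ceil_pos]
      have h1 : 1 < p ^ (e0 + 1) := Nat.one_lt_pow (by omega) hp.1.one_lt
      have h2 : (0 : ℝ≥0) < ((p ^ (e0 + 1) - 1 : ℕ) : ℝ≥0) := by
        rw [Nat.cast_pos]
        omega
      positivity
    have h3 := Ideal.pow_le_self hN hd
    have h4 : Ideal.map (algebraMap (Rxyz p) (Localization.AtPrime (P0 p)))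
        (Ideal.span {v p 2} ^ k * Ideal.span {v p 0, v p 1}) ≤
        Ideal.span {algebraMap _ _ (v p 0), algebraMap _ _ (v p 1)} := by
      refine (Ideal.map_mono Ideal.mul_le_right).trans ?_
      rw [Ideal.map_span, Set.image_pair]
    exact h4 h3

theorem fpt_pow (n : ℕ) (hn : 1 ≤ n) : fpt p (Ideal.span {v p 2} ^ n) = (n : ℝ≥0∞)⁻¹ := by
  have hn0 : (0 : ℝ≥0) < n := by exact_mod_cast hn
  have hmap : ∀ (P : Ideal (Rxyz p)) [P.IsPrime] (N : ℕ),
      (Ideal.map (algebraMap (Rxyz p) (Localization.AtPrime P)) (Ideal.span {v p 2} ^ n)) ^ N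
      = Ideal.span {algebraMap (Rxyz p) (Localization.AtPrime P) (v p 2) ^ (n * N)} := by
    intro P _ N
    rw [Ideal.map_pow, Ideal.map_span, Set.image_singleton, Ideal.span_singleton_pow,
      Ideal.span_singleton_pow, ← pow_mul]
  have hcast : ((n : ℝ≥0∞))⁻¹ = (((n : ℝ≥0)⁻¹ : ℝ≥0) : ℝ≥0∞) := by
    rw [ENNReal.coe_inv hn0.ne']
    simp
  rw [hcast, fpt]
  apply le_antisymm
  · refine iSup₂_le fun t ht => ?_
    rw [ENNReal.coe_le_coe]
    by_contra hlt
    rw [not_le] at hlt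
    obtain ⟨e0, he0⟩ := ht (P0 p)
    obtain ⟨d, hd, hs⟩ := he0 (e0 + 1) (Nat.le_succ _)
    rw [hmap] at hd
    refine not_splits_of_mem (loc_not_unit 2) ?_ hs
    refine Ideal.span_singleton_le_span_singleton.2 (pow_dvd_pow _ ?_) hd
    set q := p ^ (e0 + 1) with hq
    have h1 : 1 < q := Nat.one_lt_pow (by omega) hp.1.one_lt
    have h2 : t * ((q - 1 : ℕ) : ℝ≥0) ≤ (⌈t * ((q - 1 : ℕ) : ℝ≥0)⌉₊ : ℝ≥0) := Nat.le_ceil _
    have h3 : ((q - 1 : ℕ) : ℝ≥0) < ((n * ⌈t * ((q - 1 : ℕ) : ℝ≥0)⌉₊ : ℕ) : ℝ≥0) := by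
      have h4 : (0 : ℝ≥0) < ((q - 1 : ℕ) : ℝ≥0) := by
        rw [Nat.cast_pos]
        omega
      calc ((q - 1 : ℕ) : ℝ≥0) = n * ((n : ℝ≥0)⁻¹ * ((q - 1 : ℕ) : ℝ≥0)) := by
            rw [← mul_assoc, mul_inv_cancel₀ hn0.ne', one_mul]
        _ < n * (t * ((q - 1 : ℕ) : ℝ≥0)) := by gcongr
        _ ≤ n * (⌈t * ((q - 1 : ℕ) : ℝ≥0)⌉₊ : ℝ≥0) := by gcongr
        _ = _ := by push_cast; rfl
    rw [Nat.cast_lt] at h3
    omega
  · refine ENNReal.le_of_forall_nnreal_lt fun t ht => ?_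
    rw [ENNReal.coe_lt_coe] at ht
    refine le_iSup₂_of_le t ?_ le_rfl
    intro P _
    -- `n t < 1`
    have hnt : (n : ℝ≥0) * t < 1 := by
      calc (n : ℝ≥0) * t < n * (n : ℝ≥0)⁻¹ := by gcongr
        _ = 1 := mul_inv_cancel₀ hn0.ne'
    -- eventually `n ⌈t (q - 1)⌉ ≤ q - 1`
    obtain ⟨K, hK⟩ := exists_nat_gt ((n : ℝ) / (1 - n * t))
    have hnt' : (n : ℝ) * t < 1 := by exact_mod_cast hnt
    refine ⟨K, fun e he => ?_⟩
    set q := p ^ e with hq
    have hqe : e < q := Nat.lt_pow_self hp.1.one_lt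
    have h1 : n * ⌈t * ((q - 1 : ℕ) : ℝ≥0)⌉₊ ≤ q - 1 := by
      have h2 : (⌈t * ((q - 1 : ℕ) : ℝ≥0)⌉₊ : ℝ≥0) < t * ((q - 1 : ℕ) : ℝ≥0) + 1 :=
        Nat.ceil_lt_add_one (by positivity)
      have h3 : ((⌈t * ((q - 1 : ℕ) : ℝ≥0)⌉₊ : ℕ) : ℝ) < t * ((q - 1 : ℕ) : ℝ) + 1 := by
        exact_mod_cast h2
      have h4 : (K : ℝ) ≤ ((q - 1 : ℕ) : ℝ) := by
        rw [Nat.cast_le]
        omega
      have h5 : (n : ℝ) < (1 - n * t) * ((q - 1 : ℕ) : ℝ) := by
        rw [div_lt_iff₀ (by linarith)] at hK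
        nlinarith
      have h6 : ((n * ⌈t * ((q - 1 : ℕ) : ℝ≥0)⌉₊ : ℕ) : ℝ) < ((q - 1 : ℕ) : ℝ) := by
        rw [Nat.cast_mul]
        have hn' : (0 : ℝ) < n := by exact_mod_cast hn
        nlinarith
      exact (Nat.cast_lt.1 h6).le
    refine ⟨algebraMap _ _ (v p 2) ^ (q - 1), ?_, ?_⟩
    · rw [hmap, Ideal.mem_span_singleton]
      exact pow_dvd_pow _ h1
    · rw [← map_pow]
      exact (splits_z e).localize hp.1.pos P

theorem scaled (m : ℕ) (hm : 1 ≤ m) :
    (m : ℝ≥0∞) * fpt p (seq p m) = if Even m then 2 else 0 := by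
  by_cases h : Even m
  · rw [if_pos h, seq, if_pos h]
    obtain ⟨n, rfl⟩ := h
    have h1 : (n + n) / 2 = n := by omega
    have hn : 1 ≤ n := by omega
    rw [h1, fpt_pow n hn]
    have hn0 : (n : ℝ≥0∞) ≠ 0 := by
      exact_mod_cast (by omega : n ≠ 0)
    push_cast
    rw [← two_mul, mul_assoc, ENNReal.mul_inv_cancel hn0 (ENNReal.natCast_ne_top n), mul_one]
  · rw [if_neg h, seq, if_neg h, fpt_odd, mul_zero]

theorem not_tendsto : ¬ ∃ L : ℝ≥0∞,
    Tendsto (fun m : ℕ => (m : ℝ≥0∞) * fpt p (seq p m)) atTop (𝓝 L) := by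
  rintro ⟨L, hL⟩
  have h1 : Tendsto (fun n : ℕ => 2 * (n + 1)) atTop atTop :=
    tendsto_atTop_mono (fun n => by simp only [id]; omega) tendsto_id
  have h2 : Tendsto (fun n : ℕ => 2 * n + 1) atTop atTop :=
    tendsto_atTop_mono (fun n => by simp only [id]; omega) tendsto_id
  have h3 := hL.comp h1
  have h4 := hL.comp h2
  have e3 : ((fun m : ℕ => (m : ℝ≥0∞) * fpt p (seq p m)) ∘ fun n : ℕ => 2 * (n + 1))
      = fun _ => 2 := by
    funext n
    change ((2 * (n + 1) : ℕ) : ℝ≥0∞) * fpt p (seq p (2 * (n + 1))) = 2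
    rw [scaled _ (by omega), if_pos (by simp)]
  have e4 : ((fun m : ℕ => (m : ℝ≥0∞) * fpt p (seq p m)) ∘ fun n : ℕ => 2 * n + 1)
      = fun _ => 0 := by
    funext n
    change ((2 * n + 1 : ℕ) : ℝ≥0∞) * fpt p (seq p (2 * n + 1)) = 0
    rw [scaled _ (by omega), if_neg (by simp)]
  rw [e3] at h3
  rw [e4] at h4
  have := (tendsto_nhds_unique h3 tendsto_const_nhds).symm.trans
    (tendsto_nhds_unique h4 tendsto_const_nhds)
  simp at this

end Pool.Agent.H9.FPT
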