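import Pool.Agent.H9.FPT.Ring

/-!
# A Frobenius splitting of `𝔽_p[x, y, z]/(xy)`
-/

namespace Pool.Agent.H9.FPT

open MvPolynomial

variable {p : ℕ} [hp : Fact p.Prime]

/-- The value of the splitting on a monomial. -/
noncomputable def g (p : ℕ) (m : Fin 3 →₀ ℕ) : MvPolynomial (Fin 3) (ZMod p) :=
  if p ∣ m 0 ∧ p ∣ m 1 ∧ m 2 % p = p - 1 then monomial (m.mapRange (· / p) (Nat.zero_div p)) 1
  else 0

/-- The splitting of the polynomial ring. -/
noncomputable def φ0 (p : ℕ) : MvPolynomial (Fin 3) (ZMod p) →ₗ[ZMod p]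
    MvPolynomial (Fin 3) (ZMod p) :=
  (basisMonomials (Fin 3) (ZMod p)).constr (ZMod p) (g p)

theorem φ0_monomial (m : Fin 3 →₀ ℕ) (c : ZMod p) : φ0 p (monomial m c) = c • g p m := by
  have h : monomial m c = c • (basisMonomials (Fin 3) (ZMod p)) m := by
    rw [coe_basisMonomials, smul_monomial, smul_eq_mul, mul_one]
  rw [h, map_smul, φ0, Module.Basis.constr_basis]

theorem g_add (a b : Fin 3 →₀ ℕ) : g p (p • a + b) = monomial a 1 * g p b := by
  have h2 : (p * a 2 + b 2) % p = b 2 % p := by rw [Nat.mul_add_mod]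
  unfold g
  simp only [Finsupp.coe_add, Finsupp.coe_smul, Pi.add_apply, Pi.smul_apply, smul_eq_mul, h2,
    Nat.dvd_add_right (Dvd.intro _ rfl)]
  split_ifs with h
  · have e1 : (p • a + b).mapRange (· / p) (Nat.zero_div p)
        = a + b.mapRange (· / p) (Nat.zero_div p) := by
      ext i
      simp only [Finsupp.mapRange_apply, Finsupp.coe_add, Finsupp.coe_smul, Pi.add_apply,
        Pi.smul_apply, smul_eq_mul]
      rw [Nat.mul_add_div hp.1.pos]
    rw [monomial_mul, mul_one, e1]
  · rw [mul_zero]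

theorem φ0_pow_mul (r s : MvPolynomial (Fin 3) (ZMod p)) : φ0 p (r ^ p * s) = r * φ0 p s := by
  haveI : CharP (MvPolynomial (Fin 3) (ZMod p)) p := inferInstance
  induction r using MvPolynomial.induction_on' with
  | monomial a c =>
    induction s using MvPolynomial.induction_on' with
    | monomial b d =>
      rw [monomial_pow, monomial_mul, φ0_monomial, φ0_monomial, ZMod.pow_card,
        g_add, smul_eq_C_mul, smul_eq_C_mul]
      have : monomial a c = C c * monomial a (1 : ZMod p) := by rw [C_mul_monomial, mul_one]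
      rw [this, C_mul]
      ring
    | add s t hs ht => rw [mul_add, map_add, hs, ht, map_add, mul_add]
  | add r t hr ht => rw [add_pow_char, add_mul, map_add, hr, ht, add_mul]

theorem g_mem (m : Fin 3 →₀ ℕ) (h0 : m 0 ≠ 0) (h1 : m 1 ≠ 0) :
    g p m ∈ Ideal.span {(X 0 * X 1 : MvPolynomial (Fin 3) (ZMod p))} := by
  unfold g
  split_ifs with h
  · rw [Ideal.mem_span_singleton]
    obtain ⟨⟨a, ha⟩, ⟨b, hb⟩, -⟩ := h
    have ha0 : a ≠ 0 := by rintro rfl; exact h0 (by simpa using ha)
    have hb0 : b ≠ 0 := by rintro rfl; exact h1 (by simpa using hb)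
    have hp0 := hp.1.pos
    have hm : m.mapRange (· / p) (Nat.zero_div p) = Finsupp.single 0 1 + Finsupp.single 1 1 +
        (m.mapRange (· / p) (Nat.zero_div p) - Finsupp.single 0 1 - Finsupp.single 1 1) := by
      ext i
      fin_cases i
      · simp only [Fin.zero_eta, Finsupp.mapRange_apply, Finsupp.coe_add, Pi.add_apply,
          Finsupp.coe_tsub, Pi.sub_apply, ha, Nat.mul_div_cancel_left _ hp0]
        simp
        omega
      · simp only [Fin.mk_one, Finsupp.mapRange_apply, Finsupp.coe_add, Pi.add_apply,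
          Finsupp.coe_tsub, Pi.sub_apply, hb, Nat.mul_div_cancel_left _ hp0]
        simp
        omega
      · simp
    refine ⟨monomial (m.mapRange (· / p) (Nat.zero_div p) - Finsupp.single 0 1
      - Finsupp.single 1 1) 1, ?_⟩
    rw [X, X, monomial_mul, monomial_mul, mul_one, mul_one, ← hm]
  · exact Submodule.zero_mem _

theorem φ0_mem (a : MvPolynomial (Fin 3) (ZMod p))
    (ha : a ∈ Ideal.span {(X 0 * X 1 : MvPolynomial (Fin 3) (ZMod p))}) :
    φ0 p a ∈ Ideal.span {(X 0 * X 1 : MvPolynomial (Fin 3) (ZMod p))} := by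
  rw [Ideal.mem_span_singleton] at ha
  obtain ⟨s, rfl⟩ := ha
  induction s using MvPolynomial.induction_on' with
  | monomial b d =>
    have e1 : (X 0 * X 1 * monomial b d : MvPolynomial (Fin 3) (ZMod p))
        = monomial (Finsupp.single 0 1 + Finsupp.single 1 1 + b) d := by
      rw [X, X, monomial_mul, monomial_mul, mul_one, one_mul]
    rw [e1, φ0_monomial, smul_eq_C_mul]
    apply Ideal.mul_mem_left
    apply g_mem <;> simp
  | add s t hs ht =>
    rw [mul_add, map_add]
    exact Ideal.add_mem _ hs ht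

theorem φ0_z : φ0 p (X 2 ^ (p - 1)) = 1 := by
  have hp1 := hp.1.one_lt
  rw [X, monomial_pow, one_pow, φ0_monomial, one_smul, g, if_pos]
  · have : (((p - 1) • Finsupp.single (2 : Fin 3) 1).mapRange (· / p) (Nat.zero_div p)) = 0 := by
      ext i
      fin_cases i
      · simp
      · simp
      · simp only [Fin.reduceFinMk, Finsupp.mapRange_apply, Finsupp.coe_smul, Pi.smul_apply,
          Finsupp.single_eq_same, smul_eq_mul, mul_one, Finsupp.coe_zero, Pi.zero_apply]
        exact Nat.div_eq_of_lt (by omega)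
    rw [this]
    rfl
  · refine ⟨by simp, by simp, ?_⟩
    simp only [Finsupp.coe_smul, Pi.smul_apply, Finsupp.single_eq_same, smul_eq_mul, mul_one]
    exact Nat.mod_eq_of_lt (by omega)

/-- The splitting on the quotient ring. -/
theorem exists_phi : ∃ φ : Rxyz p →+ Rxyz p, (∀ r s, φ (r ^ p * s) = r * φ s) ∧
    φ (v p 2 ^ (p - 1)) = 1 := by
  obtain ⟨ψ, h1, h2⟩ := exists_quotient
    (Ideal.span {(X 0 * X 1 : MvPolynomial (Fin 3) (ZMod p))}) p (φ0 p).toAddMonoidHom
    φ0_pow_mul φ0_mem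
  refine ⟨ψ, h1, ?_⟩
  rw [v, ← map_pow, h2]
  change Ideal.Quotient.mk _ (φ0 p (X 2 ^ (p - 1))) = 1
  rw [φ0_z, map_one]

theorem splits_z (e : ℕ) : Splits p (Rxyz p) e (v p 2 ^ (p ^ e - 1)) := by
  obtain ⟨φ, h1, h2⟩ := exists_phi (p := p)
  exact exists_iterate hp.1.pos φ (v p 2) h1 h2 e

theorem fpure : Splits p (Rxyz p) 1 1 := by
  obtain ⟨φ, h1, h2⟩ := exists_phi (p := p)
  refine ⟨φ.comp (AddMonoidHom.mulLeft (v p 2 ^ (p - 1))), ?_, ?_⟩
  · intro r s
    simp only [AddMonoidHom.comp_apply, AddMonoidHom.coe_mulLeft, pow_one]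
    rw [← h1]
    congr 1
    ring
  · simp only [AddMonoidHom.comp_apply, AddMonoidHom.coe_mulLeft, mul_one]
    exact h2

theorem mem_iff (u : MvPolynomial (Fin 3) (ZMod p)) :
    Ideal.Quotient.mk (Ideal.span {(X 0 * X 1 : MvPolynomial (Fin 3) (ZMod p))}) u = 0 ↔
      X 0 * X 1 ∣ u := by
  rw [Ideal.Quotient.eq_zero_iff_mem, Ideal.mem_span_singleton]

theorem nontriv : Nontrivial (Rxyz p) := by
  refine ⟨1, 0, fun h => ?_⟩
  rw [← map_one (Ideal.Quotient.mk _), mem_iff] at h
  obtain ⟨w, hw⟩ := h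
  have := congrArg constantCoeff hw
  simp at this

theorem exists_finset_of_finite {A B : Type} [CommRing A] [CommRing B] (f : A →+* B)
    (h : f.Finite) : ∃ S : Finset B, ∀ r : B, ∃ c : B → A, r = ∑ s ∈ S, f (c s) * s := by
  letI := f.toAlgebra
  have h6 : Module.Finite A B := h
  obtain ⟨S, hS⟩ := h6.fg_top
  refine ⟨S, fun r => ?_⟩
  have hr : r ∈ Submodule.span A (S : Set B) := by
    rw [hS]
    exact Submodule.mem_top
  rw [Submodule.mem_span_finset] at hr
  obtain ⟨c, -, hc⟩ := hr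
  exact ⟨c, hc.symm⟩

theorem ffinite : ∃ S : Finset (Rxyz p), ∀ r : Rxyz p, ∃ c : Rxyz p → Rxyz p,
    r = ∑ s ∈ S, c s ^ p * s := by
  haveI := nontriv (p := p)
  haveI : CharP (Rxyz p) p := charP_of_injective_algebraMap (algebraMap (ZMod p) (Rxyz p)).injective p
  have h1 : (frobenius (Rxyz p) p).IsIntegral := by
    intro x
    refine ⟨Polynomial.X ^ p - Polynomial.C x, Polynomial.monic_X_pow_sub_C x hp.1.ne_zero, ?_⟩
    rw [Polynomial.eval₂_sub, Polynomial.eval₂_pow, Polynomial.eval₂_X, Polynomial.eval₂_C,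
      frobenius_def, sub_self]
  have h2 : (frobenius (Rxyz p) p).FiniteType := by
    have h3 : (algebraMap (ZMod p) (Rxyz p)).FiniteType := by
      rw [RingHom.finiteType_algebraMap]
      infer_instance
    have h4 : (frobenius (Rxyz p) p).comp (algebraMap (ZMod p) (Rxyz p))
        = algebraMap (ZMod p) (Rxyz p) := by
      refine RingHom.ext fun x => ?_
      rw [RingHom.comp_apply, frobenius_def, ← map_pow, ZMod.pow_card]
    rw [← h4] at h3
    exact RingHom.FiniteType.of_comp_finiteType h3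
  have h5 := RingHom.IsIntegral.to_finite h1 h2
  exact exists_finset_of_finite _ h5

end Pool.Agent.H9.FPT
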