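import Pool.Agent.H9.FPT.Extend

/-!
# The ring `𝔽_p[x, y, z]/(xy)` and the sequence of ideals
-/

namespace Pool.Agent.H9.FPT

open MvPolynomial

/-- The ring `𝔽_p[x, y, z]/(xy)`. -/
abbrev Rxyz (p : ℕ) : Type :=
  MvPolynomial (Fin 3) (ZMod p) ⧸ Ideal.span {(X 0 * X 1 : MvPolynomial (Fin 3) (ZMod p))}

/-- The classes of `x`, `y`, `z`. -/
noncomputable def v (p : ℕ) (i : Fin 3) : Rxyz p := Ideal.Quotient.mk _ (X i)

/-- The ideals `(z)^{m/2}` for even `m` and `(z)^{(m+1)/2} · (x, y)` for odd `m`. -/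
noncomputable def seq (p : ℕ) (m : ℕ) : Ideal (Rxyz p) :=
  if Even m then Ideal.span {v p 2} ^ (m / 2)
  else Ideal.span {v p 2} ^ ((m + 1) / 2) * Ideal.span {v p 0, v p 1}

end Pool.Agent.H9.FPT
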